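import Pool.Agent.Helper74.CA.Stmts

set_option autoImplicit false

namespace Pool.Agent.Helper74.CA

open Subgroup

open scoped commutatorElement

theorem rr_cube {K : Type} [Group K] (u : K) : u ^ 3 = u * u * u := by
  rw [pow_succ, pow_two]

theorem rr_aux {K : Type} [Group K] (u s : K) (hu : u ^ 3 = 1) (hs : s ^ 3 = 1)
    (hus : (u * s⁻¹) ^ 3 = 1) : ⁅⁅u, s⁆, s * u⁆ = 1 := by
  have h1 : u * s⁻¹ * u = s * u⁻¹ * s := by
    have h : (u * s⁻¹ * u) * (s⁻¹ * u * s⁻¹) = 1 := by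
      rw [← hus, rr_cube]
      simp only [mul_assoc]
    rw [eq_inv_of_mul_eq_one_left h]
    group
  rw [rr_cube] at hu hs
  have hu' : u⁻¹ = u * u := inv_eq_of_mul_eq_one_left hu
  have hs' : s⁻¹ = s * s := inv_eq_of_mul_eq_one_left hs
  rw [commutatorElement_eq_one_iff_mul_comm]
  have h2 : ⁅u, s⁆ * (s * u) = u * s := by
    rw [commutatorElement_def]
    group
  have h3 : s * u * ⁅u, s⁆ = (s * (u * u) * s) * u⁻¹ * s⁻¹ := by
    rw [commutatorElement_def]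
    group
  rw [h2, h3, ← hu', ← h1, hs']
  have h4 : u * (s * s) * u * u⁻¹ * (s * s) = u * s * (s * s * s) := by
    simp only [mul_assoc, mul_inv_cancel_left]
  rw [h4, hs, mul_one]

theorem st_RR : ST_RR := by
  intro K _ a n h x y
  apply rr_aux _ _ (h.cs x) (h.cs y)
  have h1 := h.cs (x * y⁻¹)
  have h2 : (x⁻¹ * a x) * (y⁻¹ * a y)⁻¹ = y⁻¹ * ((x * y⁻¹)⁻¹ * a (x * y⁻¹)) * (y⁻¹)⁻¹ := by
    rw [map_mul, map_inv]
    group
  rw [h2, conj_pow, h1]
  group

end Pool.Agent.Helper74.CA
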